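import Pool.Agent.Lib.MP_abd978_an.UN.H87.GeoB

/-!
# Project UNW, module GEO
-/

set_option autoImplicit false

open MeasureTheory Metric Set Filter Topology ContDiff
open scoped Gradient RealInnerProductSpace NNReal ENNReal

namespace Pool.Agent.Lib.MP_abd978_an.UN.H87

open Classical in
theorem geo (hM : MorreyStatement) (hS : LsoblStatement) : GeoStatement := by
  intro N p Ω f h K hK hKΩ
  have hN1 : (1 : ℝ) ≤ N := by exact_mod_cast h.hN
  have hp := h.hp
  have hp0 : 0 < p := by linarith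
  have hpN : 0 < p - N := by linarith
  have hτ : 0 ≤ p / (p - N) := by positivity
  obtain ⟨r₀, hr₀, hG⟩ := hK.exists_cthickening_subset_open h.isOpen hKΩ
  obtain ⟨CA, hCA, hclaim⟩ := claimA hM hS h hK hr₀ hG
  have hGc : IsCompact (cthickening r₀ K) := hK.cthickening
  have hKG : K ⊆ cthickening r₀ K := self_subset_cthickening K
  obtain ⟨Ce', hCe'⟩ := h.ed _ hGc hG
  obtain ⟨Λ, hΛ0, hΛ⟩ := fderiv_bound h.loclip hGc hG
  set G := cthickening r₀ K with hGdef
  set Ce := max Ce' 0 with hCe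
  have hCe0 : 0 ≤ Ce := le_max_right _ _
  have hcf : ContinuousOn f Ω := LocLip.contOn h.loclip
  have hint : IntegrableOn (fun y => ‖fderiv ℝ f y‖ ^ p) G :=
    integrableOn_pow hp0.le h.loclip hGc hG
  refine ⟨G, CA * (Ce * 2 ^ (N + 1)) + Λ ^ p + 1, hGc, hG, by positivity,
    fun z ε s hε hs hdis => ?_⟩
  set I : E (N + 1) → ℝ := fun x => ∫ y in Cp Ω f z ε x ∩ K, ‖fderiv ℝ f y‖ ^ p with hI
  set V : ℝ := (volume : Measure (E (N + 1))).real (G ∩ f ⁻¹' ball z (2 * ε)) with hV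
  have hV0 : 0 ≤ V := measureReal_nonneg
  have hI0 : ∀ x, 0 ≤ I x := fun x => integral_nonneg fun y => by positivity
  set m : Set (E (N + 1)) → ℝ := fun A => (volume : Measure (E (N + 1))).real (A ∩ G) with hm
  have hm0 : ∀ A, 0 ≤ m A := fun A => measureReal_nonneg
  have hfinV : (volume : Measure (E (N + 1))) (G ∩ f ⁻¹' ball z (2 * ε)) ≠ ⊤ :=
    ((measure_mono inter_subset_left).trans_lt hGc.measure_lt_top).ne
  -- sums of `I`
  have hsumI : ∀ s' : Finset (E (N + 1)), s' ⊆ s →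
      ∑ x ∈ s', I x ≤ ∫ y in G ∩ f ⁻¹' ball z (2 * ε), ‖fderiv ℝ f y‖ ^ p := by
    intro s' hs'
    have hd' : (s' : Set (E (N + 1))).PairwiseDisjoint fun x => Cp Ω f z ε x ∩ K := by
      intro a ha b hb hab
      exact (hdis (hs' ha) (hs' hb) hab).mono inter_subset_left inter_subset_left
    have h1 : ∑ x ∈ s', I x = ∫ y in ⋃ x ∈ s', (Cp Ω f z ε x ∩ K), ‖fderiv ℝ f y‖ ^ p := by
      rw [integral_biUnion_finset s' (fun x _ =>
        (isOpen_Cp h.isOpen hcf z ε x).measurableSet.inter hK.measurableSet) hd']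
      intro x _
      exact hint.mono_set (inter_subset_right.trans hKG)
    rw [h1]
    refine setIntegral_mono_set (hint.mono_set inter_subset_left)
      (ae_of_all _ fun y => by positivity) (LE.le.eventuallyLE ?_)
    intro y hy
    obtain ⟨x, _, hyx⟩ := mem_iUnion₂.1 hy
    have h5 : dist (f y) z < ε := (Cp_subset z ε x hyx.1).2
    have h6 : dist (f y) z < 2 * ε := by linarith
    exact ⟨hKG hyx.2, h6⟩
  have hI1 : ∫ y in G ∩ f ⁻¹' ball z (2 * ε), ‖fderiv ℝ f y‖ ^ p ≤ Λ ^ p * V := by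
    have h1 := norm_setIntegral_le_of_norm_le_const (μ := (volume : Measure (E (N + 1))))
      (f := fun y => ‖fderiv ℝ f y‖ ^ p) (C := Λ ^ p) (s := G ∩ f ⁻¹' ball z (2 * ε))
      hfinV.lt_top (fun y hy => by
        rw [Real.norm_of_nonneg (by positivity)]
        exact Real.rpow_le_rpow (norm_nonneg _) (hΛ y hy.1) hp0.le)
    exact (le_abs_self _).trans h1
  have hI2 : ∫ y in G ∩ f ⁻¹' ball z (2 * ε), ‖fderiv ℝ f y‖ ^ p ≤ Ce * (2 * ε) ^ (N + 1) :=
    (hCe' z (2 * ε) (by positivity)).trans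
      (mul_le_mul_of_nonneg_right (le_max_left _ _) (by positivity))
  -- one term
  have hterm : ∀ x ∈ s, (diam (Cp Ω f z ε x ∩ K) / ε) ^ (p / (p - N)) * I x ≤
      I x + CA * (ε ^ (N + 1))⁻¹ * (m (Cp Ω f z (2 * ε) x) * I x) := by
    intro x hx
    rcases le_or_gt (diam (Cp Ω f z ε x ∩ K)) ε with hle | hlt
    · have h1 : (diam (Cp Ω f z ε x ∩ K) / ε) ^ (p / (p - N)) ≤ 1 :=
        Real.rpow_le_one (div_nonneg diam_nonneg hε.le) ((div_le_one hε).2 hle) hτ
      have h2 : 0 ≤ CA * (ε ^ (N + 1))⁻¹ * (m (Cp Ω f z (2 * ε) x) * I x) :=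
        mul_nonneg (by positivity) (mul_nonneg (hm0 _) (hI0 x))
      have h3 := mul_le_mul_of_nonneg_right h1 (hI0 x)
      linarith
    · have h1 := hclaim z ε x hε (hs x hx).1 (hs x hx).2 hlt
      have h2 : (diam (Cp Ω f z ε x ∩ K) / ε) ^ (p / (p - N)) ≤
          CA * m (Cp Ω f z (2 * ε) x) * (ε ^ (N + 1))⁻¹ := by
        rw [← div_eq_mul_inv, le_div_iff₀ (by positivity)]
        exact h1
      have h3 := mul_le_mul_of_nonneg_right h2 (hI0 x)
      have h4 := hI0 x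
      nlinarith
  -- the sum over the large components
  set t : Finset (Set (E (N + 1))) := s.image fun x => Cp Ω f z (2 * ε) x with ht
  have hsum2 : ∑ x ∈ s, m (Cp Ω f z (2 * ε) x) * I x ≤
      ∑ A ∈ t, m A * (Ce * (2 * ε) ^ (N + 1)) := by
    rw [← Finset.sum_fiberwise_of_maps_to (s := s) (t := t)
      (g := fun x => Cp Ω f z (2 * ε) x) fun x hx => Finset.mem_image_of_mem _ hx]
    refine Finset.sum_le_sum fun A _ => ?_
    have h1 : ∑ x ∈ s.filter (fun x => Cp Ω f z (2 * ε) x = A), m (Cp Ω f z (2 * ε) x) * I x =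
        m A * ∑ x ∈ s.filter (fun x => Cp Ω f z (2 * ε) x = A), I x := by
      rw [Finset.mul_sum]
      refine Finset.sum_congr rfl fun x hx => ?_
      rw [(Finset.mem_filter.1 hx).2]
    rw [h1]
    exact mul_le_mul_of_nonneg_left ((hsumI _ (Finset.filter_subset _ _)).trans hI2) (hm0 A)
  have hsum3 : ∑ A ∈ t, m A ≤ V := by
    have hd' : (t : Set (Set (E (N + 1)))).PairwiseDisjoint fun A => A ∩ G := by
      intro A hA B hB hAB
      obtain ⟨x, _, rfl⟩ := Finset.mem_image.1 (Finset.mem_coe.1 hA)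
      obtain ⟨y, _, rfl⟩ := Finset.mem_image.1 (Finset.mem_coe.1 hB)
      refine Disjoint.mono inter_subset_left inter_subset_left ?_
      rw [Set.disjoint_left]
      intro w hw hw'
      exact hAB ((Cp_eq hw).trans (Cp_eq hw').symm)
    have hmeas : ∀ A ∈ t, MeasurableSet (A ∩ G) := by
      intro A hA
      obtain ⟨x, _, rfl⟩ := Finset.mem_image.1 hA
      exact (isOpen_Cp h.isOpen hcf z (2 * ε) x).measurableSet.inter hGc.measurableSet
    have h1 : ∑ A ∈ t, m A = (volume : Measure (E (N + 1))).real (⋃ A ∈ t, A ∩ G) :=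
      (measureReal_biUnion_finset hd' hmeas fun A _ =>
        ((measure_mono inter_subset_right).trans_lt hGc.measure_lt_top).ne).symm
    rw [h1]
    refine measureReal_mono ?_ hfinV
    refine iUnion₂_subset fun A hA => ?_
    obtain ⟨x, _, rfl⟩ := Finset.mem_image.1 hA
    intro w hw
    exact ⟨hw.2, (Cp_subset z (2 * ε) x hw.1).2⟩
  have hpow : (ε ^ (N + 1))⁻¹ * (2 * ε) ^ (N + 1) = 2 ^ (N + 1) := by
    rw [mul_pow]
    field_simp
  calc ∑ x ∈ s, (diam (Cp Ω f z ε x ∩ K) / ε) ^ (p / (p - N)) * I x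
      ≤ ∑ x ∈ s, (I x + CA * (ε ^ (N + 1))⁻¹ * (m (Cp Ω f z (2 * ε) x) * I x)) :=
        Finset.sum_le_sum hterm
    _ = ∑ x ∈ s, I x + CA * (ε ^ (N + 1))⁻¹ * ∑ x ∈ s, m (Cp Ω f z (2 * ε) x) * I x := by
        rw [Finset.sum_add_distrib, Finset.mul_sum]
    _ ≤ Λ ^ p * V + CA * (ε ^ (N + 1))⁻¹ * (∑ A ∈ t, m A * (Ce * (2 * ε) ^ (N + 1))) :=
        add_le_add ((hsumI s (Finset.Subset.refl s)).trans hI1)
          (mul_le_mul_of_nonneg_left hsum2 (by positivity))
    _ = Λ ^ p * V + CA * Ce * ((ε ^ (N + 1))⁻¹ * (2 * ε) ^ (N + 1)) * ∑ A ∈ t, m A := by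
        rw [← Finset.sum_mul]
        ring
    _ = Λ ^ p * V + CA * Ce * 2 ^ (N + 1) * ∑ A ∈ t, m A := by rw [hpow]
    _ ≤ Λ ^ p * V + CA * Ce * 2 ^ (N + 1) * V := by
        have h1 : 0 ≤ CA * Ce * 2 ^ (N + 1) := by positivity
        have h2 := mul_le_mul_of_nonneg_left hsum3 h1
        linarith
    _ ≤ (CA * (Ce * 2 ^ (N + 1)) + Λ ^ p + 1) * V := by
        nlinarith

end Pool.Agent.Lib.MP_abd978_an.UN.H87
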