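import Pool.Agent.Lib.MP_abd978_an.UN.Interfaces

/-!
# Project UNW, module GEO: preparations
-/

set_option autoImplicit false

open MeasureTheory Metric Set Filter Topology ContDiff
open scoped Gradient RealInnerProductSpace NNReal ENNReal

namespace Pool.Agent.Lib.MP_abd978_an.UN.H87

/-! ### Locally Lipschitz maps -/

theorem LocLip.contOn {n : ℕ} {F : Type} [NormedAddCommGroup F] {Ω : Set (E n)} {f : E n → F}
    (h : LocLip Ω f) : ContinuousOn f Ω := by
  intro x hx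
  obtain ⟨K, U, hU, hL⟩ := h x hx
  exact (hL.continuousOn.continuousAt hU).continuousWithinAt

theorem ae_diff {n : ℕ} {Ω : Set (E n)} {f : E n → E n} (h : LocLip Ω f) :
    ∀ᵐ x : E n, x ∈ Ω → DifferentiableAt ℝ f x := by
  rw [ae_iff]
  apply measure_null_of_locally_null
  intro x hx
  have hxΩ : x ∈ Ω := by
    by_contra hc
    exact hx fun h' => absurd h' hc
  obtain ⟨K, U, hU, hL⟩ := h x hxΩ
  obtain ⟨V, hVU, hV, hxV⟩ := _root_.mem_nhds_iff.1 hU
  have hae : ∀ᵐ y : E n, y ∈ V → DifferentiableWithinAt ℝ f V y :=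
    (hL.mono hVU).ae_differentiableWithinAt_of_mem
  refine ⟨{y | ¬ (y ∈ V → DifferentiableWithinAt ℝ f V y)}, ?_, ae_iff.1 hae⟩
  have h1 : V ∈ 𝓝 x := hV.mem_nhds hxV
  have h2 : V ∩ {y | ¬ (y ∈ Ω → DifferentiableAt ℝ f y)} ∈
      𝓝[{y | ¬ (y ∈ Ω → DifferentiableAt ℝ f y)}] x :=
    inter_mem (mem_nhdsWithin_of_mem_nhds h1) self_mem_nhdsWithin
  refine mem_of_superset h2 ?_
  rintro y ⟨hyV, hy⟩ hc
  exact hy fun _ => (hc hyV).differentiableAt (hV.mem_nhds hyV)

theorem fderiv_bound {n : ℕ} {Ω K : Set (E n)} {f : E n → E n} (h : LocLip Ω f)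
    (hK : IsCompact K) (hKΩ : K ⊆ Ω) : ∃ Λ : ℝ, 0 ≤ Λ ∧ ∀ x ∈ K, ‖fderiv ℝ f x‖ ≤ Λ := by
  refine hK.induction_on (p := fun s => ∃ Λ : ℝ, 0 ≤ Λ ∧ ∀ x ∈ s, ‖fderiv ℝ f x‖ ≤ Λ) ?_ ?_ ?_ ?_
  · exact ⟨0, le_rfl, fun x hx => absurd hx (notMem_empty x)⟩
  · rintro s t hst ⟨Λ, h0, h1⟩
    exact ⟨Λ, h0, fun x hx => h1 x (hst hx)⟩
  · rintro s t ⟨Λ, h0, h1⟩ ⟨Λ', h0', h1'⟩
    refine ⟨max Λ Λ', le_max_of_le_left h0, ?_⟩
    rintro x (hx | hx)
    · exact (h1 x hx).trans (le_max_left _ _)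
    · exact (h1' x hx).trans (le_max_right _ _)
  · intro x hx
    obtain ⟨C, U, hU, hL⟩ := h x (hKΩ hx)
    obtain ⟨V, hVU, hV, hxV⟩ := _root_.mem_nhds_iff.1 hU
    refine ⟨V, mem_nhdsWithin_of_mem_nhds (hV.mem_nhds hxV), C, C.2, fun y hy => ?_⟩
    exact norm_fderiv_le_of_lipschitzOn ℝ (hV.mem_nhds hy) (hL.mono hVU)

theorem meas_pow {n : ℕ} (f : E n → E n) (p : ℝ) :
    Measurable fun x => ‖fderiv ℝ f x‖ ^ p :=
  ((measurable_fderiv ℝ f).norm).pow_const p

theorem integrableOn_pow {n : ℕ} {Ω K : Set (E n)} {f : E n → E n} {p : ℝ} (hp : 0 ≤ p)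
    (h : LocLip Ω f) (hK : IsCompact K) (hKΩ : K ⊆ Ω) :
    IntegrableOn (fun x => ‖fderiv ℝ f x‖ ^ p) K := by
  obtain ⟨Λ, h0, h1⟩ := fderiv_bound h hK hKΩ
  refine Measure.integrableOn_of_bounded (M := Λ ^ p) hK.measure_lt_top.ne
    (meas_pow f p).aestronglyMeasurable ?_
  filter_upwards [ae_restrict_mem hK.measurableSet] with x hx
  rw [Real.norm_of_nonneg (by positivity)]
  exact Real.rpow_le_rpow (norm_nonneg _) (h1 x hx) hp

/-! ### The oscillation of `f` on balls -/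

theorem loclip_inner {n : ℕ} {Ω : Set (E n)} {f : E n → E n} (e : E n) (h : LocLip Ω f) :
    LocLip Ω fun x => ⟪e, f x⟫ := by
  intro x hx
  obtain ⟨K, U, hU, hL⟩ := h x hx
  refine ⟨‖e‖₊ * K, U, hU, ?_⟩
  have h1 : LipschitzWith ‖e‖₊ fun y : E n => ⟪e, y⟫ := by
    refine LipschitzWith.of_dist_le_mul fun a b => ?_
    rw [Real.dist_eq, ← inner_sub_right, dist_eq_norm]
    exact abs_real_inner_le_norm _ _
  exact h1.comp_lipschitzOnWith hL

theorem norm_grad_inner_le {n : ℕ} {f : E n → E n} {x : E n} (e : E n)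
    (h : DifferentiableAt ℝ f x) : ‖∇ (fun y => ⟪e, f y⟫) x‖ ≤ ‖e‖ * ‖fderiv ℝ f x‖ := by
  rw [norm_grad]
  have h1 : HasFDerivAt (fun y => ⟪e, f y⟫) ((innerSL ℝ e).comp (fderiv ℝ f x)) x :=
    (innerSL ℝ e).hasFDerivAt.comp x h.hasFDerivAt
  rw [h1.fderiv]
  refine (ContinuousLinearMap.opNorm_comp_le _ _).trans ?_
  rw [innerSL_apply_norm]

/-- the oscillation estimate for `f` -/
theorem osc_ball {n : ℕ} {p : ℝ} (hn : 1 ≤ n) (hp : (n : ℝ) < p) (hM : MorreyStatement)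
    (hS : LsoblStatement) : ∃ C : ℝ, 0 < C ∧ ∀ (Ω : Set (E n)) (f : E n → E n), IsOpen Ω →
    LocLip Ω f → ∀ (y : E n) (d : ℝ), 0 < d → closedBall y d ⊆ Ω → ∀ a ∈ closedBall y d,
    ‖f y - f a‖ ≤ C * d ^ (1 - n / p) * (∫ x in ball y d, ‖fderiv ℝ f x‖ ^ p) ^ (1 / p) := by
  obtain ⟨C, hC, hMo⟩ := hM n p hn hp
  have hn1 : (1 : ℝ) ≤ n := by exact_mod_cast hn
  have hp1 : 1 < p := by linarith
  have hp0 : 0 < p := by linarith
  refine ⟨C, hC, fun Ω f hΩ hf y d hd hyd a ha => ?_⟩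
  have hI0 : 0 ≤ ∫ x in ball y d, ‖fderiv ℝ f x‖ ^ p :=
    integral_nonneg fun x => by positivity
  rcases eq_or_ne (f y) (f a) with he | he
  · rw [he, sub_self, norm_zero]
    positivity
  have hne : f y - f a ≠ 0 := sub_ne_zero.2 he
  have hne' : ‖f y - f a‖ ≠ 0 := norm_ne_zero_iff.2 hne
  set e : E n := ‖f y - f a‖⁻¹ • (f y - f a) with he'
  have hnorm : ‖e‖ = 1 := by
    rw [he', norm_smul, norm_inv, norm_norm, inv_mul_cancel₀ hne']
  set u : E n → ℝ := fun x => ⟪e, f x⟫ with hu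
  have hul : LocLip Ω u := loclip_inner e hf
  have hsob : LocSob volume p Ω u fun x => ∇ u x := hS n p Ω u hp1 hΩ hul
  have hcl : closure (ball y d) = closedBall y d := closure_ball y hd.ne'
  have hsb : IsSob volume p (ball y d) u fun x => ∇ u x :=
    hsob (ball y d) isOpen_ball (by rw [hcl]; exact isCompact_closedBall y d)
      (by rw [hcl]; exact hyd)
  have hcont : ContinuousOn u Ω := LocLip.contOn hul
  have hdiff := ae_diff hf
  have hle : ∫ x in ball y d, ‖∇ u x‖ ^ p ≤ ∫ x in ball y d, ‖fderiv ℝ f x‖ ^ p := by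
    refine integral_mono_of_nonneg (ae_of_all _ fun x => by positivity)
      ((integrableOn_pow hp0.le hf (isCompact_closedBall y d) hyd).mono_set
        ball_subset_closedBall) ?_
    filter_upwards [ae_restrict_of_ae hdiff, ae_restrict_mem measurableSet_ball] with x hx hxb
    have h1 := norm_grad_inner_le e (hx (hyd (ball_subset_closedBall hxb)))
    rw [hnorm, one_mul] at h1
    exact Real.rpow_le_rpow (norm_nonneg _) h1 hp0.le
  have hB : ∀ b ∈ ball y d, |u y - u b| ≤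
      C * d ^ (1 - n / p) * (∫ x in ball y d, ‖fderiv ℝ f x‖ ^ p) ^ (1 / p) := by
    intro b hb
    refine (hMo y d u _ hd (hcont.mono (ball_subset_closedBall.trans hyd)) hsb y
      (mem_ball_self hd) b hb).trans ?_
    refine mul_le_mul_of_nonneg_left ?_ (by positivity)
    exact Real.rpow_le_rpow (integral_nonneg fun x => by positivity) hle (by positivity)
  have hlim : |u y - u a| ≤
      C * d ^ (1 - n / p) * (∫ x in ball y d, ‖fderiv ℝ f x‖ ^ p) ^ (1 / p) := by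
    have ha' : a ∈ closure (ball y d) := by rw [hcl]; exact ha
    have : (𝓝[ball y d] a).NeBot := mem_closure_iff_nhdsWithin_neBot.1 ha'
    have ht : Tendsto u (𝓝[ball y d] a) (𝓝 (u a)) :=
      (hcont a (hyd ha)).mono_left (nhdsWithin_mono a (ball_subset_closedBall.trans hyd))
    have ht2 : Tendsto (fun b => |u y - u b|) (𝓝[ball y d] a) (𝓝 |u y - u a|) :=
      (tendsto_const_nhds.sub ht).abs
    exact le_of_tendsto ht2 (eventually_mem_nhdsWithin.mono hB)
  have hfin : |u y - u a| = ‖f y - f a‖ := by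
    rw [hu]
    simp only
    rw [← inner_sub_right, he', real_inner_smul_left, real_inner_self_eq_norm_sq, pow_two,
      ← mul_assoc, inv_mul_cancel₀ hne', one_mul, abs_norm]
  rw [← hfin]
  exact hlim

/-! ### Components -/

section comp

variable {n : ℕ} {Ω : Set (E n)} {f : E n → E n}

theorem isOpen_pre (hΩ : IsOpen Ω) (hf : ContinuousOn f Ω) (z : E n) (r : ℝ) :
    IsOpen (Ω ∩ f ⁻¹' ball z r) := hf.isOpen_inter_preimage hΩ isOpen_ball

theorem isOpen_Cp (hΩ : IsOpen Ω) (hf : ContinuousOn f Ω) (z : E n) (r : ℝ) (x : E n) :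
    IsOpen (Cp Ω f z r x) := (isOpen_pre hΩ hf z r).connectedComponentIn

theorem Cp_subset (z : E n) (r : ℝ) (x : E n) : Cp Ω f z r x ⊆ Ω ∩ f ⁻¹' ball z r :=
  connectedComponentIn_subset _ _

theorem mem_Cp {z : E n} {r : ℝ} {x : E n} (hx : x ∈ Ω) (h : dist (f x) z < r) :
    x ∈ Cp Ω f z r x := mem_connectedComponentIn ⟨hx, h⟩

theorem Cp_eq {z : E n} {r : ℝ} {x y : E n} (h : y ∈ Cp Ω f z r x) :
    Cp Ω f z r x = Cp Ω f z r y := connectedComponentIn_eq h

theorem Cp_mono {z : E n} {r r' : ℝ} (x : E n) (h : r ≤ r') : Cp Ω f z r x ⊆ Cp Ω f z r' x :=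
  connectedComponentIn_mono x (inter_subset_inter_right _
    (preimage_mono (ball_subset_ball h)))

theorem mem_Cp_of_closure (hΩ : IsOpen Ω) (hf : ContinuousOn f Ω) {z : E n} {r : ℝ}
    {x y : E n} (hy : y ∈ closure (Cp Ω f z r x)) (hyΩ : y ∈ Ω) (hyr : dist (f y) z < r) :
    y ∈ Cp Ω f z r x := by
  have h1 : y ∈ Cp Ω f z r y := mem_Cp hyΩ hyr
  obtain ⟨w, hw, hw'⟩ := mem_closure_iff.1 hy _ (isOpen_Cp hΩ hf z r y) h1
  rw [Cp_eq hw', ← Cp_eq hw]
  exact h1

end comp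

/-! ### Spheres meet connected sets -/

theorem exists_dist {n : ℕ} {W : Set (E n)} (hW : IsPreconnected W) {x₁ x₂ : E n}
    (h1 : x₁ ∈ W) (h2 : x₂ ∈ W) {s : ℝ} (hs : s ∈ Icc 0 (dist x₂ x₁)) :
    ∃ y ∈ W, dist y x₁ = s := by
  have hc : ContinuousOn (fun y : E n => dist y x₁) W := (continuous_id.dist continuous_const).continuousOn
  have h := hW.intermediate_value h1 h2 hc
  simp only [dist_self] at h
  obtain ⟨y, hy, hy'⟩ := h hs
  exact ⟨y, hy, hy'⟩

/-! ### The covering of an interval -/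

theorem cover {n : ℕ} (x₁ : E n) (r : ℝ) (hr : 0 < r) (y : ℝ → E n) (d : ℝ → ℝ)
    (hy : ∀ s ∈ Icc (r / 2) r, dist (y s) x₁ = s) (hd : ∀ s ∈ Icc (r / 2) r, 0 < d s ) :
    ∃ T : Finset ℝ, (∀ s ∈ T, s ∈ Icc (r / 2) r) ∧
      ((T : Set ℝ).PairwiseDisjoint fun s => closedBall (y s) (d s)) ∧
      r / 2 ≤ 10 * ∑ s ∈ T, d s := by
  obtain ⟨T₀, hcov⟩ := (isCompact_Icc (a := r / 2) (b := r)).elim_nhds_subcover'
    (fun s _ => Ioo (s - d s) (s + d s)) (fun s hs => Ioo_mem_nhds (by linarith [hd s hs])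
      (by linarith [hd s hs]))
  set t : Set ℝ := Subtype.val '' (T₀ : Set (Icc (r / 2) r)) with ht
  have htf : t.Finite := T₀.finite_toSet.image _
  have htI : ∀ s ∈ t, s ∈ Icc (r / 2) r := by
    rintro s ⟨s', _, rfl⟩
    exact s'.2
  obtain ⟨R, hR⟩ := (htf.image d).bddAbove
  obtain ⟨u, hut, hdis, hu⟩ := Vitali.exists_disjoint_subfamily_covering_enlargement_closedBall
    t y d R (fun a ha => hR (mem_image_of_mem d ha)) 5 (by norm_num)
  have huf : u.Finite := htf.subset hut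
  refine ⟨huf.toFinset, fun s hs => htI s (hut (huf.mem_toFinset.1 hs)), ?_, ?_⟩
  · rw [huf.coe_toFinset]
    exact hdis
  · have hsub : Icc (r / 2) r ⊆ ⋃ s ∈ huf.toFinset, Icc (s - 5 * d s) (s + 5 * d s) := by
      intro τ hτ
      have hcτ := hcov hτ
      rw [mem_iUnion₂] at hcτ
      obtain ⟨a, haT, ha⟩ := hcτ
      have hat : (a : ℝ) ∈ t := ⟨a, haT, rfl⟩
      have haI := htI _ hat
      have ha0 : 0 < (a : ℝ) := by linarith [haI.1]
      obtain ⟨b, hbu, hb⟩ := hu a hat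
      set w : E n := x₁ + (τ / a) • (y a - x₁) with hw
      have hya : ‖y a - x₁‖ = a := by rw [← dist_eq_norm]; exact hy a haI
      have hτ0 : 0 < τ := by linarith [hτ.1]
      have hw1 : dist w x₁ = τ := by
        rw [hw, dist_eq_norm, add_sub_cancel_left, norm_smul, hya, Real.norm_of_nonneg
          (by positivity), div_mul_cancel₀ _ ha0.ne']
      have hw2 : w ∈ closedBall (y a) (d a) := by
        have h3 : w - y a = (τ / a - 1) • (y a - x₁) := by
          rw [hw, sub_smul, one_smul]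
          abel
        rw [mem_closedBall, dist_eq_norm, h3, norm_smul, hya, Real.norm_eq_abs]
        have h4 : |τ / a - 1| * a = |τ - a| := by
          rw [show τ - a = (τ / a - 1) * a by field_simp, abs_mul, abs_of_pos ha0]
        rw [h4, abs_le]
        constructor <;> linarith [ha.1, ha.2]
      have hw3 := hb hw2
      rw [mem_closedBall] at hw3
      have hbI := htI b (hut hbu)
      have h5 : |τ - b| ≤ 5 * d b := by
        have h6 : |dist w x₁ - dist (y b) x₁| ≤ dist w (y b) := abs_dist_sub_le _ _ _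
        rw [hw1, hy b hbI] at h6
        exact h6.trans hw3
      rw [abs_le] at h5
      refine mem_iUnion₂.2 ⟨b, huf.mem_toFinset.2 hbu, ?_, ?_⟩ <;> linarith [h5.1, h5.2]
    have hm := (measure_mono (μ := (volume : Measure ℝ)) hsub).trans
      (measure_biUnion_finset_le _ _)
    rw [Real.volume_Icc] at hm
    have h7 : ∀ s ∈ huf.toFinset, volume (Icc (s - 5 * d s) (s + 5 * d s)) =
        ENNReal.ofReal (10 * d s) := fun s _ => by
      rw [Real.volume_Icc]
      congr 1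
      ring
    rw [Finset.sum_congr rfl h7, ← ENNReal.ofReal_sum_of_nonneg] at hm
    · rw [ENNReal.ofReal_le_ofReal_iff] at hm
      · rw [Finset.mul_sum]
        linarith
      · refine Finset.sum_nonneg fun s hs => ?_
        have := hd s (htI s (hut (huf.mem_toFinset.1 hs)))
        positivity
    · intro s hs
      have := hd s (htI s (hut (huf.mem_toFinset.1 hs)))
      positivity

/-! ### Hoelder -/

theorem holder {ι : Type} (T : Finset ι) (d : ι → ℝ) (hd : ∀ i ∈ T, 0 < d i) {N : ℕ} {p : ℝ}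
    (hN : 1 ≤ N) (hp : (N : ℝ) + 1 < p) :
    ∑ i ∈ T, d i ≤ (∑ i ∈ T, d i ^ ((N : ℝ) + 1 - p)) ^ (N / p) *
      (∑ i ∈ T, d i ^ (N + 1)) ^ ((p - N) / p) := by
  have hN1 : (1 : ℝ) ≤ N := by exact_mod_cast hN
  have hp0 : 0 < p := by linarith
  have hpN : 0 < p - N := by linarith
  have hc : (p / N).HolderConjugate (p / (p - N)) := by
    rw [Real.holderConjugate_iff]
    refine ⟨?_, ?_⟩
    · rw [lt_div_iff₀ (by linarith)]
      linarith
    · rw [inv_div, inv_div]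
      field_simp
      ring
  have h := Real.inner_le_Lp_mul_Lq T (fun i => (d i ^ ((N : ℝ) + 1 - p)) ^ (N / p))
    (fun i => (d i ^ (N + 1)) ^ ((p - N) / p)) hc
  have e1 : ∀ i ∈ T, (d i ^ ((N : ℝ) + 1 - p)) ^ (N / p) * (d i ^ (N + 1)) ^ ((p - N) / p)
      = d i := by
    intro i hi
    have h0 := hd i hi
    rw [← Real.rpow_natCast (d i) (N + 1), ← Real.rpow_mul h0.le, ← Real.rpow_mul h0.le,
      ← Real.rpow_add h0]
    have h1 : ((N : ℝ) + 1 - p) * (N / p) + ((N + 1 : ℕ) : ℝ) * ((p - N) / p) = 1 := by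
      push_cast
      field_simp
      ring
    rw [h1, Real.rpow_one]
  have e2 : ∀ i ∈ T, |(d i ^ ((N : ℝ) + 1 - p)) ^ ((N : ℝ) / p)| ^ (p / N) =
      d i ^ ((N : ℝ) + 1 - p) := by
    intro i hi
    have h0 := hd i hi
    rw [abs_of_nonneg (by positivity), ← Real.rpow_mul (by positivity)]
    have h1 : (N : ℝ) / p * (p / N) = 1 := by
      field_simp
    rw [h1, Real.rpow_one]
  have e3 : ∀ i ∈ T, |(d i ^ (N + 1)) ^ ((p - N) / p)| ^ (p / (p - N)) = d i ^ (N + 1) := by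
    intro i hi
    have h0 := hd i hi
    rw [abs_of_nonneg (by positivity), ← Real.rpow_mul (by positivity)]
    have h1 : (p - N) / p * (p / (p - N)) = 1 := by
      field_simp
    rw [h1, Real.rpow_one]
  rw [Finset.sum_congr rfl e1, Finset.sum_congr rfl e2, Finset.sum_congr rfl e3] at h
  rw [one_div_div, one_div_div] at h
  exact h

end Pool.Agent.Lib.MP_abd978_an.UN.H87
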