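import Pool.Agent.Lib.MP_abd978_an.UN.H87.GeoA

/-!
# Project UNW, module GEO: the estimate for one component
-/

set_option autoImplicit false

open MeasureTheory Metric Set Filter Topology ContDiff
open scoped Gradient RealInnerProductSpace NNReal ENNReal

namespace Pool.Agent.Lib.MP_abd978_an.UN.H87

theorem alg2 {N : ℕ} {p δ ε c S X V B V' : ℝ} (hN : 1 ≤ N) (hp : (N : ℝ) + 1 < p)
    (hδ : 0 < δ) (hε : 0 < ε) (hc : 0 < c) (hB : 0 ≤ B) (hX : 0 ≤ X) (hV : 0 ≤ V)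
    (h1 : δ ≤ c * S) (h2 : S ≤ X ^ ((N : ℝ) / p) * V ^ ((p - N) / p))
    (h3 : X ≤ B * ε ^ ((N : ℝ) + 1 - p)) (h4 : V ≤ V') :
    (δ / ε) ^ (p / (p - N)) * ε ^ (N + 1) ≤
      c ^ (p / (p - N)) * B ^ ((N : ℝ) / (p - N)) * V' := by
  have hN1 : (1 : ℝ) ≤ N := by exact_mod_cast hN
  have hp0 : 0 < p := by linarith
  have hpN : 0 < p - N := by linarith
  have hτ : 0 < p / (p - N) := by positivity
  have hV' : 0 ≤ V' := hV.trans h4
  have hS0 : 0 ≤ S := by
    by_contra hcon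
    have : c * S < 0 := mul_neg_of_pos_of_neg hc (not_le.1 hcon)
    linarith
  have hX' : 0 ≤ B * ε ^ ((N : ℝ) + 1 - p) := by positivity
  have h5 : δ ^ (p / (p - N)) ≤ c ^ (p / (p - N)) * S ^ (p / (p - N)) := by
    rw [← Real.mul_rpow hc.le hS0]
    exact Real.rpow_le_rpow hδ.le h1 hτ.le
  have h6 : S ^ (p / (p - N)) ≤ (B * ε ^ ((N : ℝ) + 1 - p)) ^ ((N : ℝ) / (p - N)) * V' := by
    have h7 : S ^ (p / (p - N)) ≤ (X ^ ((N : ℝ) / p) * V ^ ((p - N) / p)) ^ (p / (p - N)) :=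
      Real.rpow_le_rpow hS0 h2 hτ.le
    refine h7.trans ?_
    rw [Real.mul_rpow (by positivity) (by positivity), ← Real.rpow_mul hX,
      ← Real.rpow_mul hV]
    have e1 : (N : ℝ) / p * (p / (p - N)) = N / (p - N) := by field_simp
    have e2 : (p - N) / p * (p / (p - N)) = 1 := by field_simp
    rw [e1, e2, Real.rpow_one]
    refine mul_le_mul ?_ h4 hV (by positivity)
    exact Real.rpow_le_rpow hX h3 (by positivity)
  have e3 : (B * ε ^ ((N : ℝ) + 1 - p)) ^ ((N : ℝ) / (p - N)) =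
      B ^ ((N : ℝ) / (p - N)) * ε ^ (((N : ℝ) + 1 - p) * (N / (p - N))) := by
    rw [Real.mul_rpow hB (by positivity), ← Real.rpow_mul hε.le]
  have e4 : (δ / ε) ^ (p / (p - N)) * ε ^ (N + 1) =
      δ ^ (p / (p - N)) * ε ^ ((N : ℝ) + 1 - p / (p - N)) := by
    rw [Real.div_rpow hδ.le hε.le, ← Real.rpow_natCast ε (N + 1), Real.rpow_sub hε]
    push_cast
    ring
  have e5 : ε ^ (((N : ℝ) + 1 - p) * (N / (p - N))) * ε ^ ((N : ℝ) + 1 - p / (p - N)) = 1 := by
    rw [← Real.rpow_add hε]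
    have : ((N : ℝ) + 1 - p) * (N / (p - N)) + ((N : ℝ) + 1 - p / (p - N)) = 0 := by
      field_simp
      ring
    rw [this, Real.rpow_zero]
  rw [e4]
  calc δ ^ (p / (p - N)) * ε ^ ((N : ℝ) + 1 - p / (p - N))
      ≤ (c ^ (p / (p - N)) * (B ^ ((N : ℝ) / (p - N)) *
          ε ^ (((N : ℝ) + 1 - p) * (N / (p - N))) * V')) * ε ^ ((N : ℝ) + 1 - p / (p - N)) := by
        refine mul_le_mul_of_nonneg_right (h5.trans ?_) (by positivity)
        refine mul_le_mul_of_nonneg_left ?_ (by positivity)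
        rw [← e3]
        exact h6
    _ = c ^ (p / (p - N)) * B ^ ((N : ℝ) / (p - N)) * V' *
          (ε ^ (((N : ℝ) + 1 - p) * (N / (p - N))) * ε ^ ((N : ℝ) + 1 - p / (p - N))) := by ring
    _ = c ^ (p / (p - N)) * B ^ ((N : ℝ) / (p - N)) * V' := by rw [e5, mul_one]

theorem alg1 {N : ℕ} {p δ ε : ℝ} (hN : 1 ≤ N) (hp : (N : ℝ) + 1 < p) (hε : 0 < ε)
    (h : ε < δ) : (δ / ε) ^ (p / (p - N)) * ε ^ (N + 1) ≤ δ ^ (N + 1) := by
  have hN1 : (1 : ℝ) ≤ N := by exact_mod_cast hN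
  have hpN : 0 < p - N := by linarith
  have hδ : 0 < δ := hε.trans h
  have h1 : (1 : ℝ) ≤ δ / ε := by
    rw [le_div_iff₀ hε]
    linarith
  have h2 : p / (p - N) ≤ ((N + 1 : ℕ) : ℝ) := by
    rw [div_le_iff₀ hpN]
    push_cast
    nlinarith
  have h3 : (δ / ε) ^ (p / (p - N)) ≤ (δ / ε) ^ (N + 1) := by
    rw [← Real.rpow_natCast (δ / ε) (N + 1)]
    exact Real.rpow_le_rpow_of_exponent_le h1 h2
  calc (δ / ε) ^ (p / (p - N)) * ε ^ (N + 1) ≤ (δ / ε) ^ (N + 1) * ε ^ (N + 1) :=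
        mul_le_mul_of_nonneg_right h3 (by positivity)
    _ = δ ^ (N + 1) := by
        rw [← mul_pow, div_mul_cancel₀ _ hε.ne']

/-- one ball -/
theorem alg3 {p d ε C A : ℝ} {n : ℕ} (hp : 0 < p) (hd : 0 < d) (hε : 0 < ε)
    (hC : 0 < C) (hA : 0 ≤ A) (h : ε ≤ C * d ^ (1 - n / p) * A ^ (1 / p)) :
    d ^ ((n : ℝ) - p) ≤ C ^ p * ε ^ (-p) * A := by
  have h1 : ε ^ p ≤ C ^ p * d ^ (p - n) * A := by
    have h2 := Real.rpow_le_rpow hε.le h hp.le
    rw [Real.mul_rpow (by positivity) (by positivity), Real.mul_rpow hC.le (by positivity),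
      ← Real.rpow_mul hd.le, ← Real.rpow_mul hA, one_div, inv_mul_cancel₀ hp.ne',
      Real.rpow_one] at h2
    have e : (1 - (n : ℝ) / p) * p = p - n := by field_simp
    rwa [e] at h2
  have h3 : 0 < ε ^ p := by positivity
  have h4 : d ^ (p - n) * d ^ ((n : ℝ) - p) = 1 := by
    rw [← Real.rpow_add hd, show p - n + ((n : ℝ) - p) = 0 by ring, Real.rpow_zero]
  rw [Real.rpow_neg hε.le]
  calc d ^ ((n : ℝ) - p) = ε ^ p * ((ε ^ p)⁻¹ * d ^ ((n : ℝ) - p)) := by
        rw [← mul_assoc, mul_inv_cancel₀ h3.ne', one_mul]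
    _ ≤ (C ^ p * d ^ (p - n) * A) * ((ε ^ p)⁻¹ * d ^ ((n : ℝ) - p)) :=
        mul_le_mul_of_nonneg_right h1 (by positivity)
    _ = C ^ p * (ε ^ p)⁻¹ * A * (d ^ (p - n) * d ^ ((n : ℝ) - p)) := by ring
    _ = C ^ p * (ε ^ p)⁻¹ * A := by rw [h4, mul_one]

theorem claimA (hM : MorreyStatement) (hS : LsoblStatement) {N : ℕ} {p : ℝ}
    {Ω : Set (E (N + 1))} {f : E (N + 1) → E (N + 1)} (h : Sig p Ω f) {K : Set (E (N + 1))}
    (hK : IsCompact K) {r₀ : ℝ} (hr₀ : 0 < r₀) (hG : cthickening r₀ K ⊆ Ω) :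
    ∃ C : ℝ, 0 < C ∧ ∀ (z : E (N + 1)) (ε : ℝ) (x : E (N + 1)), 0 < ε → x ∈ K →
    dist (f x) z < ε → ε < diam (Cp Ω f z ε x ∩ K) →
      (diam (Cp Ω f z ε x ∩ K) / ε) ^ (p / (p - N)) * ε ^ (N + 1) ≤
        C * volume.real (Cp Ω f z (2 * ε) x ∩ cthickening r₀ K) := by
  have hN1 : (1 : ℝ) ≤ N := by exact_mod_cast h.hN
  have hp := h.hp
  have hp0 : 0 < p := by linarith
  have hpN : 0 < p - N := by linarith
  obtain ⟨Cm, hCm, hosc⟩ := osc_ball (n := N + 1) (p := p) (by omega) (by push_cast; exact hp)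
    hM hS
  have hGc : IsCompact (cthickening r₀ K) := hK.cthickening
  obtain ⟨Ce', hCe'⟩ := h.ed _ hGc hG
  set G := cthickening r₀ K with hGdef
  set Ce := max Ce' 0 with hCe
  have hCe0 : 0 ≤ Ce := le_max_right _ _
  set v₁ := (volume : Measure (E (N + 1))).real (ball 0 1) with hv₁
  have hv₁0 : 0 < v₁ := by
    rw [hv₁, measureReal_def]
    exact ENNReal.toReal_pos (measure_ball_pos _ _ one_pos).ne' measure_ball_lt_top.ne
  have hvol : ∀ (y : E (N + 1)) (r : ℝ), 0 ≤ r →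
      (volume : Measure (E (N + 1))).real (ball y r) = r ^ (N + 1) * v₁ := by
    intro y r hr
    rw [hv₁, measureReal_def, measureReal_def, Measure.addHaar_ball _ _ hr, ENNReal.toReal_mul,
      ENNReal.toReal_ofReal (by positivity), finrank_euclideanSpace_fin]
  have hcf : ContinuousOn f Ω := LocLip.contOn h.loclip
  set D := diam K + 1 with hD
  have hD0 : 0 < D := by have := diam_nonneg (s := K); positivity
  set c₁ := min (1 / 4) (r₀ / (2 * D)) with hc₁
  have hc₁0 : 0 < c₁ := by positivity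
  have hc₁1 : c₁ ≤ 1 / 4 := min_le_left _ _
  have hc₁2 : c₁ ≤ r₀ / (2 * D) := min_le_right _ _
  set B := Cm ^ p * (Ce * 2 ^ (N + 1)) with hB
  have hB0 : 0 ≤ B := by positivity
  refine ⟨(v₁ * c₁ ^ (N + 1))⁻¹ + (20 / c₁) ^ (p / (p - N)) * B ^ ((N : ℝ) / (p - N)) / v₁,
    by positivity, fun z ε x hε hxK hxz hdiam => ?_⟩
  set W := Cp Ω f z ε x with hW
  set W' := Cp Ω f z (2 * ε) x with hW'
  set δ := diam (W ∩ K) with hδ
  have hδ0 : 0 < δ := hε.trans hdiam
  set m := (volume : Measure (E (N + 1))).real (W' ∩ G) with hm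
  have hm0 : 0 ≤ m := measureReal_nonneg
  have hWW' : W ⊆ W' := Cp_mono x (by linarith)
  have hW'o : IsOpen W' := isOpen_Cp h.isOpen hcf z (2 * ε) x
  have hbdd : Bornology.IsBounded (W ∩ K) := hK.isBounded.subset inter_subset_right
  have hδD : δ ≤ D := by
    have : δ ≤ diam K := diam_mono inter_subset_right hK.isBounded
    linarith
  have hfin : (volume : Measure (E (N + 1))) (W' ∩ G) ≠ ⊤ :=
    ((measure_mono inter_subset_right).trans_lt hGc.measure_lt_top).ne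
  -- two points of `W ∩ K`
  obtain ⟨x₁, hx₁, x₂, hx₂, h12⟩ : ∃ x₁ ∈ W ∩ K, ∃ x₂ ∈ W ∩ K, δ / 2 < dist x₂ x₁ := by
    by_contra hcon
    push Not at hcon
    have h1 : δ ≤ δ / 2 := diam_le_of_forall_dist_le (by positivity)
      fun a ha b hb => hcon b hb a ha
    linarith
  set δ' := c₁ * δ with hδ'
  have hδ'0 : 0 < δ' := by positivity
  have hδ'1 : δ' ≤ δ / 4 := by rw [hδ']; nlinarith
  have hδ'2 : 2 * δ' ≤ r₀ := by
    have h1 : δ' ≤ r₀ / (2 * D) * D := mul_le_mul hc₁2 hδD hδ0.le (by positivity)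
    have h2 : r₀ / (2 * D) * D = r₀ / 2 := by field_simp
    linarith
  have hballG : ∀ y : E (N + 1), dist y x₁ ≤ δ' → closedBall y δ' ⊆ G := by
    intro y hy w hw
    refine closedBall_subset_cthickening hx₁.2 r₀ ?_
    rw [mem_closedBall] at hw ⊢
    linarith [dist_triangle w y x₁]
  have hC1 : 0 ≤ (v₁ * c₁ ^ (N + 1))⁻¹ := by positivity
  have hC2 : 0 ≤ (20 / c₁) ^ (p / (p - N)) * B ^ ((N : ℝ) / (p - N)) / v₁ := by positivity
  by_cases hcase : ∃ y ∈ W, dist y x₁ ≤ δ' ∧ ball y δ' ⊆ W'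
  · -- Case 1
    obtain ⟨y, -, hyd, hyb⟩ := hcase
    have h1 : δ' ^ (N + 1) * v₁ ≤ m := by
      rw [← hvol y δ' hδ'0.le]
      exact measureReal_mono (subset_inter hyb (ball_subset_closedBall.trans (hballG y hyd))) hfin
    have h2 := alg1 h.hN hp hε hdiam
    have h3 : δ ^ (N + 1) ≤ (v₁ * c₁ ^ (N + 1))⁻¹ * m := by
      rw [inv_mul_eq_div, le_div_iff₀ (by positivity)]
      have h4 : δ' ^ (N + 1) = c₁ ^ (N + 1) * δ ^ (N + 1) := mul_pow _ _ _
      rw [h4] at h1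
      linarith
    calc (δ / ε) ^ (p / (p - N)) * ε ^ (N + 1) ≤ δ ^ (N + 1) := h2
      _ ≤ (v₁ * c₁ ^ (N + 1))⁻¹ * m := h3
      _ ≤ _ := mul_le_mul_of_nonneg_right (le_add_of_nonneg_right hC2) hm0
  · -- Case 2
    push Not at hcase
    have hpt : ∀ s ∈ Icc (δ' / 2) δ', ∃ y ∈ W, dist y x₁ = s := fun s hs =>
      exists_dist isPreconnected_connectedComponentIn hx₁.1 hx₂.1
        ⟨by linarith [hs.1], by linarith [hs.2]⟩
    choose! Y hYW hYd using hpt
    have hdd : ∀ s ∈ Icc (δ' / 2) δ', 0 < infDist (Y s) W'ᶜ ∧ infDist (Y s) W'ᶜ ≤ δ' ∧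
        ball (Y s) (infDist (Y s) W'ᶜ) ⊆ W' ∧ ∃ y' ∈ W'ᶜ,
          infDist (Y s) W'ᶜ = dist (Y s) y' := by
      intro s hs
      have h1 := hcase (Y s) (hYW s hs) (by rw [hYd s hs]; exact hs.2)
      obtain ⟨w, hw, hwW'⟩ := not_subset.1 h1
      have hne : (W'ᶜ).Nonempty := ⟨w, hwW'⟩
      have hcl : IsClosed W'ᶜ := hW'o.isClosed_compl
      refine ⟨?_, ?_, ?_, ?_⟩
      · refine (hcl.notMem_iff_infDist_pos hne).1 ?_
        exact fun hc => hc (hWW' (hYW s hs))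
      · refine (infDist_le_dist_of_mem hwW').trans ?_
        rw [dist_comm]
        exact (mem_ball.1 hw).le
      · exact ball_infDist_compl_subset
      · exact hcl.exists_infDist_eq_dist hne (Y s)
    set d : ℝ → ℝ := fun s => infDist (Y s) W'ᶜ with hd
    obtain ⟨T, hTI, hTdis, hTsum⟩ := cover x₁ δ' hδ'0 Y d hYd fun s hs => (hdd s hs).1
    set A : ℝ → ℝ := fun s => ∫ y in ball (Y s) (d s), ‖fderiv ℝ f y‖ ^ p with hA
    have hA0 : ∀ s, 0 ≤ A s := fun s => integral_nonneg fun y => by positivity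
    have hbG : ∀ s ∈ T, closedBall (Y s) (d s) ⊆ G := fun s hs =>
      (closedBall_subset_closedBall (hdd s (hTI s hs)).2.1).trans
        (hballG (Y s) (by rw [hYd s (hTI s hs)]; exact (hTI s hs).2))
    have hbW : ∀ s ∈ T, ball (Y s) (d s) ⊆ W' := fun s hs => (hdd s (hTI s hs)).2.2.1
    have hone : ∀ s ∈ T, d s ^ (((N + 1 : ℕ) : ℝ) - p) ≤ Cm ^ p * ε ^ (-p) * A s := by
      intro s hs
      obtain ⟨h0, hle, hbW', y', hy', hy'd⟩ := hdd s (hTI s hs)
      have hy'c : y' ∈ closedBall (Y s) (d s) := by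
        rw [mem_closedBall, dist_comm]
        exact hy'd.ge
      have h1 := hosc Ω f h.isOpen h.loclip (Y s) (d s) h0 ((hbG s hs).trans hG) y' hy'c
      refine alg3 hp0 h0 hε hCm (hA0 s) (le_trans ?_ h1)
      have hy'Ω : y' ∈ Ω := hG (hbG s hs hy'c)
      have h2 : 2 * ε ≤ dist (f y') z := by
        by_contra hcon
        refine hy' (mem_Cp_of_closure h.isOpen hcf (z := z) (r := 2 * ε) (x := x) ?_ hy'Ω
          (not_le.1 hcon))
        have h3 : y' ∈ closure (ball (Y s) (d s)) := by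
          rw [closure_ball _ h0.ne']
          exact hy'c
        exact closure_mono hbW' h3
      have h3 : dist (f (Y s)) z < ε := (Cp_subset z ε x (hYW s (hTI s hs))).2
      rw [← dist_eq_norm]
      linarith [dist_triangle_left (f y') z (f (Y s))]
    have hdis2 : (T : Set ℝ).PairwiseDisjoint fun s => ball (Y s) (d s) :=
      fun a ha b hb hab => (hTdis ha hb hab).mono ball_subset_closedBall ball_subset_closedBall
    have hUsub : (⋃ s ∈ T, ball (Y s) (d s)) ⊆ W' ∩ G := by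
      refine iUnion₂_subset fun s hs => subset_inter (hbW s hs) ?_
      exact ball_subset_closedBall.trans (hbG s hs)
    have hsumA : ∑ s ∈ T, A s ≤ Ce * (2 * ε) ^ (N + 1) := by
      have hint : IntegrableOn (fun y => ‖fderiv ℝ f y‖ ^ p) G :=
        integrableOn_pow hp0.le h.loclip hGc hG
      have h1 : ∑ s ∈ T, A s = ∫ y in ⋃ s ∈ T, ball (Y s) (d s), ‖fderiv ℝ f y‖ ^ p := by
        rw [integral_biUnion_finset T (fun s _ => measurableSet_ball) hdis2]
        intro s hs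
        exact hint.mono_set (ball_subset_closedBall.trans (hbG s hs))
      rw [h1]
      have h2 := hCe' z (2 * ε) (by positivity)
      have h3 : ∫ y in ⋃ s ∈ T, ball (Y s) (d s), ‖fderiv ℝ f y‖ ^ p ≤
          ∫ y in G ∩ f ⁻¹' ball z (2 * ε), ‖fderiv ℝ f y‖ ^ p := by
        refine setIntegral_mono_set (hint.mono_set inter_subset_left)
          (ae_of_all _ fun y => by positivity) (LE.le.eventuallyLE ?_)
        intro y hy
        exact ⟨(hUsub hy).2, (Cp_subset z (2 * ε) x (hUsub hy).1).2⟩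
      refine h3.trans (h2.trans ?_)
      exact mul_le_mul_of_nonneg_right (le_max_left _ _) (by positivity)
    have hsumV : (∑ s ∈ T, d s ^ (N + 1)) * v₁ ≤ m := by
      rw [Finset.sum_mul, hm]
      have h1 : ∀ s ∈ T, d s ^ (N + 1) * v₁ =
          (volume : Measure (E (N + 1))).real (ball (Y s) (d s)) := fun s hs =>
        (hvol _ _ (hdd s (hTI s hs)).1.le).symm
      rw [Finset.sum_congr rfl h1, ← measureReal_biUnion_finset hdis2
        (fun s _ => measurableSet_ball)]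
      exact measureReal_mono hUsub hfin
    have hX : ∑ s ∈ T, d s ^ ((N : ℝ) + 1 - p) ≤ B * ε ^ ((N : ℝ) + 1 - p) := by
      have h1 : ∑ s ∈ T, d s ^ ((N : ℝ) + 1 - p) ≤ Cm ^ p * ε ^ (-p) * ∑ s ∈ T, A s := by
        rw [Finset.mul_sum]
        refine Finset.sum_le_sum fun s hs => ?_
        have := hone s hs
        push_cast at this
        exact this
      refine h1.trans ?_
      refine (mul_le_mul_of_nonneg_left hsumA (by positivity)).trans (le_of_eq ?_)
      rw [hB, show (N : ℝ) + 1 - p = -p + ((N + 1 : ℕ) : ℝ) by push_cast; ring,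
        Real.rpow_add hε, Real.rpow_natCast, mul_pow]
      ring
    have hfinal := alg2 (N := N) (p := p) (δ := δ) (ε := ε) (c := 20 / c₁)
      (S := ∑ s ∈ T, d s) (X := ∑ s ∈ T, d s ^ ((N : ℝ) + 1 - p))
      (V := ∑ s ∈ T, d s ^ (N + 1)) (B := B) (V' := m / v₁) h.hN hp hδ0 hε (by positivity) hB0
      (Finset.sum_nonneg fun s hs => by
        have := (hdd s (hTI s hs)).1
        positivity)
      (Finset.sum_nonneg fun s hs => by
        have := (hdd s (hTI s hs)).1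
        positivity)
      (by
        rw [div_mul_eq_mul_div, le_div_iff₀ hc₁0]
        have : δ * c₁ = δ' := by rw [hδ']; ring
        rw [this]
        linarith)
      (holder T d (fun s hs => (hdd s (hTI s hs)).1) h.hN hp) hX
      (by rw [le_div_iff₀ hv₁0]; exact hsumV)
    calc (δ / ε) ^ (p / (p - N)) * ε ^ (N + 1)
        ≤ (20 / c₁) ^ (p / (p - N)) * B ^ ((N : ℝ) / (p - N)) * (m / v₁) := hfinal
      _ = (20 / c₁) ^ (p / (p - N)) * B ^ ((N : ℝ) / (p - N)) / v₁ * m := by ring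
      _ ≤ _ := mul_le_mul_of_nonneg_right (le_add_of_nonneg_left hC1) hm0

end Pool.Agent.Lib.MP_abd978_an.UN.H87
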